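import Pool.Agent.helper70.LE.SpecN

set_option autoImplicit false

namespace Pool.Agent.LE

open Pool.Agent.helper58.DC Pool.Agent.DI Pool.Agent.GR Pool.Agent.OB Pool.Agent.DR Pool.Agent.FI Pool.Agent.FI3 Pool.Agent.FI4

/-- an automorphism as an endomorphism of the additive group -/
def CYV_f (V : Type) [CommGroup V] : MulAut V →* AddMonoid.End (Additive V) where
  toFun g := MonoidHom.toAdditive g.toMonoidHom
  map_one' := rfl
  map_mul' _ _ := rfl

theorem CYV_inj (V : Type) [CommGroup V] : Function.Injective (CYV_f V) := by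
  intro g h e
  ext v
  exact DFunLike.congr_fun e (Additive.ofMul v)

/-- the ring generated by two commuting endomorphisms: nonzero elements are injective -/
theorem CYV_key (V : Type) [CommGroup V] (α β : MulAut V)
    (hirr : ∀ W : Subgroup V, (∀ w ∈ W, α w ∈ W) → (∀ w ∈ W, β w ∈ W) → W = ⊥ ∨ W = ⊤)
    (s : AddMonoid.End (Additive V)) (ha : s * CYV_f V α = CYV_f V α * s) (hb : s * CYV_f V β = CYV_f V β * s)
    (h0 : s ≠ 0) : Function.Injective s := by
  let W : Subgroup V :=
    { carrier := {v | s (Additive.ofMul v) = 0}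
      one_mem' := map_zero s
      mul_mem' := fun {v w} hv hw => by
        show s (Additive.ofMul v + Additive.ofMul w) = 0
        rw [map_add, hv, hw, add_zero]
      inv_mem' := fun {v} hv => by
        show s (-Additive.ofMul v) = 0
        rw [map_neg, hv, neg_zero] }
  have h1 : ∀ w ∈ W, α w ∈ W := fun w hw => by
    have e := DFunLike.congr_fun ha (Additive.ofMul w)
    have e2 : s (CYV_f V α (Additive.ofMul w)) = CYV_f V α (s (Additive.ofMul w)) := e
    have hw' : s (Additive.ofMul w) = 0 := hw
    rw [hw', map_zero] at e2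
    exact e2
  have h2 : ∀ w ∈ W, β w ∈ W := fun w hw => by
    have e := DFunLike.congr_fun hb (Additive.ofMul w)
    have e2 : s (CYV_f V β (Additive.ofMul w)) = CYV_f V β (s (Additive.ofMul w)) := e
    have hw' : s (Additive.ofMul w) = 0 := hw
    rw [hw', map_zero] at e2
    exact e2
  rcases hirr W h1 h2 with h | h
  · rw [injective_iff_map_eq_zero]
    intro v hv
    have : Additive.toMul v ∈ W := hv
    rw [h, Subgroup.mem_bot] at this
    exact this
  · exact absurd (AddMonoidHom.ext fun v => by
      have : Additive.toMul v ∈ W := by rw [h]; exact Subgroup.mem_top _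
      exact this) h0

theorem CYV : CYV_stmt := by
  intro V _ _ _ α β hc hirr
  classical
  set a := CYV_f V α with ha
  set b := CYV_f V β with hb
  have hab : a * b = b * a := by rw [ha, hb, ← map_mul, hc.eq, map_mul]
  let T : Set (AddMonoid.End (Additive V)) := {a, b}
  have hT : ∀ x ∈ T, ∀ y ∈ T, x * y = y * x := by
    rintro x (rfl | rfl) y (rfl | rfl)
    · rfl
    · exact hab
    · exact hab.symm
    · rfl
  have hcomm : IsMulCommutative (Subring.closure T) := Subring.isMulCommutative_closure hT
  let cr : CommRing (Subring.closure T) := { (inferInstance : Ring (Subring.closure T)) with mul_comm := hcomm.is_comm.comm }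
  have haT : a ∈ Subring.closure T := Subring.subset_closure (Set.mem_insert _ _)
  have hbT : b ∈ Subring.closure T := Subring.subset_closure (Set.mem_insert_of_mem _ rfl)
  have hinj : ∀ s : Subring.closure T, s ≠ 0 → Function.Injective (s : AddMonoid.End (Additive V)) := by
    intro s hs
    refine CYV_key V α β hirr s ?_ ?_ fun h => hs (Subtype.ext h)
    · exact congrArg Subtype.val (mul_comm s ⟨a, haT⟩)
    · exact congrArg Subtype.val (mul_comm s ⟨b, hbT⟩)
  have : Finite (AddMonoid.End (Additive V)) := by
    have : Finite (Additive V) := inferInstanceAs (Finite V)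
    exact Finite.of_injective (fun f : AddMonoid.End (Additive V) => (f : Additive V → Additive V)) DFunLike.coe_injective
  have : Nontrivial (Additive V) := inferInstanceAs (Nontrivial V)
  have : Nontrivial (Subring.closure T) := by
    refine ⟨0, 1, fun h => ?_⟩
    obtain ⟨v, hv⟩ := exists_ne (0 : Additive V)
    have h1 : (0 : AddMonoid.End (Additive V)) = 1 := congrArg Subtype.val h
    exact hv (DFunLike.congr_fun h1 v).symm
  have : NoZeroDivisors (Subring.closure T) := by
    refine ⟨fun {s t} hst => ?_⟩
    by_contra hh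
    push Not at hh
    refine hh.2 (Subtype.ext (AddMonoidHom.ext fun v => ?_))
    refine hinj s hh.1 ?_
    have e := congrArg Subtype.val hst
    have e2 := DFunLike.congr_fun e v
    refine e2.trans ?_
    exact (map_zero (s : AddMonoid.End (Additive V))).symm
  have : IsDomain (Subring.closure T) := NoZeroDivisors.to_isDomain _
  have : Finite (MulAut V) := Finite.of_injective (CYV_f V) (CYV_inj V)
  have hau : IsUnit (⟨a, haT⟩ : Subring.closure T) := by
    refine IsUnit.of_pow_eq_one (n := orderOf α) (Subtype.ext ?_) (orderOf_pos α).ne'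
    show a ^ orderOf α = 1
    rw [ha, ← map_pow, pow_orderOf_eq_one, map_one]
  have hbu : IsUnit (⟨b, hbT⟩ : Subring.closure T) := by
    refine IsUnit.of_pow_eq_one (n := orderOf β) (Subtype.ext ?_) (orderOf_pos β).ne'
    show b ^ orderOf β = 1
    rw [hb, ← map_pow, pow_orderOf_eq_one, map_one]
  obtain ⟨u, hu⟩ := hau
  obtain ⟨w, hw⟩ := hbu
  obtain ⟨⟨g, hg⟩, hgen⟩ := IsCyclic.exists_generator (α := Subgroup.closure {u, w})
  obtain ⟨m, n, hmn⟩ := Subgroup.mem_closure_pair.1 hg
  obtain ⟨i, hi⟩ := Subgroup.mem_zpowers_iff.1 (hgen ⟨u, Subgroup.subset_closure (Set.mem_insert _ _)⟩)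
  obtain ⟨j, hj⟩ := Subgroup.mem_zpowers_iff.1 (hgen ⟨w, Subgroup.subset_closure (Set.mem_insert_of_mem _ rfl)⟩)
  have hi' : g ^ i = u := congrArg Subtype.val hi
  have hj' : g ^ j = w := congrArg Subtype.val hj
  let Φ : MulAut V →* (AddMonoid.End (Additive V))ˣ := (CYV_f V).toHomUnits
  let Ψ : (Subring.closure T)ˣ →* (AddMonoid.End (Additive V))ˣ := Units.map (Subring.closure T).subtype
  have hΦ : Function.Injective Φ := fun x y h => CYV_inj V (congrArg Units.val h)
  have hΦa : Φ α = Ψ u := Units.ext (congrArg Subtype.val hu).symm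
  have hΦb : Φ β = Ψ w := Units.ext (congrArg Subtype.val hw).symm
  refine ⟨m, n, i, j, hΦ ?_, hΦ ?_⟩
  · rw [map_zpow, map_mul, map_zpow, map_zpow, hΦa, hΦb, ← map_zpow, ← map_zpow, ← map_mul, hmn, ← map_zpow, hi']
  · rw [map_zpow, map_mul, map_zpow, map_zpow, hΦa, hΦb, ← map_zpow, ← map_zpow, ← map_mul, hmn, ← map_zpow, hj']

end Pool.Agent.LE
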