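import Pool.Agent.helper70.LE.SpecN

set_option autoImplicit false

namespace Pool.Agent.LE

open Pool.Agent.helper58.DC Pool.Agent.DI Pool.Agent.GR Pool.Agent.OB Pool.Agent.DR Pool.Agent.FI Pool.Agent.FI3 Pool.Agent.FI4

open scoped Classical in
theorem KKF_fs {G : Type} [Fintype G] (S : Set G) (f : G → ℂ) :
    ∑ᶠ x ∈ S, f x = ∑ x, if x ∈ S then f x else 0 := by
  rw [finsum_mem_def, finsum_eq_sum_of_fintype]
  exact Finset.sum_congr rfl fun x _ => by rw [Set.indicator_apply]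

open scoped Classical in
theorem KKF_fe {G : Type} [Fintype G] (S T : Set G) (f g : G → ℂ) (σ : G ≃ G) (hS : ∀ x, x ∈ S ↔ σ x ∈ T)
    (h : ∀ x ∈ S, f x = g (σ x)) : ∑ᶠ x ∈ S, f x = ∑ᶠ x ∈ T, g x := by
  rw [KKF_fs, KKF_fs]
  refine Fintype.sum_equiv σ _ _ fun x => ?_
  by_cases hx : x ∈ S
  · rw [if_pos hx, if_pos ((hS x).1 hx), h x hx]
  · rw [if_neg hx, if_neg fun h => hx ((hS x).2 h)]

theorem KKF_nz {G : Type} [Group G] [Finite G] {L : Subgroup G} {y : G} (hy : y ∈ nz L) (l : G) :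
    l ∈ L ↔ y * l * y⁻¹ ∈ L := by
  have := Subgroup.mem_normalizer_iff.1 hy l
  exact this

theorem KKF_nz' {G : Type} [Group G] [Finite G] {L : Subgroup G} {y : G} (hy : y ∈ nz L) (l : G) :
    l ∈ L ↔ y⁻¹ * l * y ∈ L := by
  have := KKF_nz (inv_mem hy) l
  rwa [inv_inv] at this

/-- conjugation by `l ∈ L` preserves `a L` -/
theorem KKF_cs {G : Type} [Group G] [Finite G] {L : Subgroup G} {a : G} (ha : a ∈ nz L) {l : G} (hl : l ∈ L) (x : G) :
    a⁻¹ * x ∈ L ↔ a⁻¹ * (l * x * l⁻¹) ∈ L := by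
  have e : a⁻¹ * (l * x * l⁻¹) = (a⁻¹ * l * a) * (a⁻¹ * x) * l⁻¹ := by group
  rw [e, Subgroup.mul_mem_cancel_right L (inv_mem hl), Subgroup.mul_mem_cancel_left L ((KKF_nz' ha l).1 hl)]

theorem KKF_3a {G : Type} [Group G] [Finite G] (L : Subgroup G) (e : G → ℂ) (he : ∀ l ∈ L, ∀ x, e (l * x * l⁻¹) = e x) {l : G}
    (hl : l ∈ L) (x x' : G) : KK L e (l * x * l⁻¹) x' = KK L e x x' := by
  have := Fintype.ofFinite G
  unfold KK
  refine KKF_fe _ _ _ _ (Equiv.mulLeft l⁻¹) (fun m => ?_) fun m _ => ?_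
  · simp only [SetLike.mem_coe, Equiv.coe_mulLeft]
    rw [Subgroup.mul_mem_cancel_left L (inv_mem hl)]
  · simp only [Equiv.coe_mulLeft]
    rw [← he l hl (x * (l⁻¹ * m) * x'⁻¹ * (l⁻¹ * m)⁻¹)]
    exact congrArg e (by group)

theorem KKF_3b {G : Type} [Group G] [Finite G] (L : Subgroup G) (e : G → ℂ) {l : G}
    (hl : l ∈ L) (x x' : G) : KK L e x (l * x' * l⁻¹) = KK L e x x' := by
  have := Fintype.ofFinite G
  unfold KK
  refine KKF_fe _ _ _ _ (Equiv.mulRight l) (fun m => ?_) fun m _ => ?_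
  · simp only [SetLike.mem_coe, Equiv.coe_mulRight]
    rw [Subgroup.mul_mem_cancel_right L hl]
  · simp only [Equiv.coe_mulRight]
    exact congrArg e (by group)

open scoped Classical in
theorem KKF_B {G : Type} [Group G] [Finite G] (L : Subgroup G) (a : G) (ha : a ∈ nz L) (e h : G → ℂ)
    (hh : ∀ l ∈ L, ∀ x, h (l * x * l⁻¹) = h x) (x : G) :
    ∑ᶠ x' ∈ {x' : G | a⁻¹ * x' ∈ L}, KK L e x x' * h x' =
      (Nat.card L : ℂ) * ∑ᶠ x' ∈ {x' : G | a⁻¹ * x' ∈ L}, e (x * x'⁻¹) * h x' := by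
  have := Fintype.ofFinite G
  have h1 : ∀ l ∈ L, ∑ᶠ x' ∈ {x' : G | a⁻¹ * x' ∈ L}, e (x * l * x'⁻¹ * l⁻¹) * h x' =
      ∑ᶠ x' ∈ {x' : G | a⁻¹ * x' ∈ L}, e (x * x'⁻¹) * h x' := by
    intro l hl
    refine KKF_fe _ _ _ _ (MulAut.conj l).toEquiv (fun m => ?_) fun m _ => ?_
    · simp only [Set.mem_ofPred_eq, MulEquiv.toEquiv_eq_coe, EquivLike.coe_coe, MulAut.conj_apply]
      exact KKF_cs ha hl m
    · simp only [MulEquiv.toEquiv_eq_coe, EquivLike.coe_coe, MulAut.conj_apply]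
      rw [hh l hl]
      exact congrArg (fun t => e t * h m) (by group)
  have h2 : ∑ᶠ x' ∈ {x' : G | a⁻¹ * x' ∈ L}, KK L e x x' * h x' =
      ∑ᶠ l ∈ (L : Set G), ∑ᶠ x' ∈ {x' : G | a⁻¹ * x' ∈ L}, e (x * l * x'⁻¹ * l⁻¹) * h x' := by
    simp only [KK, KKF_fs]
    have : ∀ x' : G, (if x' ∈ {x' : G | a⁻¹ * x' ∈ L} then
        (∑ l, if l ∈ (L : Set G) then e (x * l * x'⁻¹ * l⁻¹) else 0) * h x' else 0) =
        ∑ l, if l ∈ (L : Set G) then (if x' ∈ {x' : G | a⁻¹ * x' ∈ L} then e (x * l * x'⁻¹ * l⁻¹) * h x' else 0) else 0 := by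
      intro x'
      split_ifs with hx
      · rw [Finset.sum_mul]
        exact Finset.sum_congr rfl fun l _ => by split_ifs <;> simp
      · simp
    simp only [this]
    rw [Finset.sum_comm]
    refine Finset.sum_congr rfl fun l _ => ?_
    split_ifs
    · rfl
    · simp
  rw [h2]
  have h3 : ∑ᶠ l ∈ (L : Set G), ∑ᶠ x' ∈ {x' : G | a⁻¹ * x' ∈ L}, e (x * l * x'⁻¹ * l⁻¹) * h x' =
      ∑ᶠ l ∈ (L : Set G), ∑ᶠ x' ∈ {x' : G | a⁻¹ * x' ∈ L}, e (x * x'⁻¹) * h x' :=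
    finsum_mem_congr rfl fun l hl => h1 l hl
  rw [h3, KKF_fs (L : Set G), ← Finset.sum_filter, Finset.sum_const, nsmul_eq_mul]
  congr 2
  rw [Nat.card_eq_fintype_card, Fintype.card_subtype]
  rfl

theorem KKF_cv {G : Type} [Group G] [Finite G] (e f : G → ℂ) (x g : G) :
    cv e f (x * g) = ∑ᶠ X, e (x * X⁻¹) * f (X * g) := by
  unfold cv
  refine finsum_eq_of_bijective (fun t => t⁻¹ * x) ?_ fun t => ?_
  · exact (Equiv.trans (Equiv.inv G) (Equiv.mulRight x)).bijective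
  · refine congrArg₂ (fun u v => e u * f v) ?_ ?_ <;> group

theorem KKF : KKF_stmt := by
  intro G _ _ L a ha
  have := Fintype.ofFinite G
  classical
  refine ⟨?_, ?_, ?_, ?_, ?_, ?_, ?_⟩
  · intro e f he hf x x'' hx hx''
    rw [KKF_B L a ha e (fun x' => KK L f x' x'') (fun l hl y => KKF_3a L f hf hl y x'') x]
    congr 1
    have h1 : KK L (cv e f) x x'' = ∑ᶠ l ∈ (L : Set G), ∑ᶠ X, e (x * X⁻¹) * f (X * l * x''⁻¹ * l⁻¹) := by
      unfold KK
      refine finsum_mem_congr rfl fun l _ => ?_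
      have := KKF_cv e f x (l * x''⁻¹ * l⁻¹)
      rw [show x * l * x''⁻¹ * l⁻¹ = x * (l * x''⁻¹ * l⁻¹) by group, this]
      exact finsum_congr fun X => by rw [show X * (l * x''⁻¹ * l⁻¹) = X * l * x''⁻¹ * l⁻¹ by group]
    rw [h1]
    simp only [KK, KKF_fs]
    simp only [finsum_eq_sum_of_fintype]
    have h2 : ∀ l : G, (if l ∈ (L : Set G) then ∑ X, e (x * X⁻¹) * f (X * l * x''⁻¹ * l⁻¹) else 0) =
        ∑ X, if l ∈ (L : Set G) then e (x * X⁻¹) * f (X * l * x''⁻¹ * l⁻¹) else 0 := by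
      intro l
      split_ifs
      · rfl
      · simp
    simp only [h2]
    rw [Finset.sum_comm]
    refine Finset.sum_congr rfl fun X _ => ?_
    by_cases hX : X ∈ {x' : G | a⁻¹ * x' ∈ L}
    · rw [if_pos hX, Finset.mul_sum]
      exact Finset.sum_congr rfl fun l _ => by split_ifs <;> simp
    · rw [if_neg hX]
      have : e (x * X⁻¹) = 0 := by
        refine he _ fun h => hX ?_
        show a⁻¹ * X ∈ L
        have e1 : a⁻¹ * X = (a⁻¹ * (x * X⁻¹) * a)⁻¹ * (a⁻¹ * x) := by group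
        rw [e1]
        exact mul_mem (inv_mem ((KKF_nz' ha _).1 h)) hx
      simp [this]
  · intro e he hc x x'
    unfold KK
    rw [KKF_fs, KKF_fs, map_sum]
    refine Fintype.sum_equiv (Equiv.inv G) _ _ fun l => ?_
    simp only [SetLike.mem_coe, Equiv.inv_apply, inv_mem_iff, inv_inv]
    split_ifs with hl
    · have h1 : e (x' * l * x⁻¹ * l⁻¹) = (starRingEnd ℂ) (e (x' * l * x⁻¹ * l⁻¹)⁻¹) := by
        rw [hc, Complex.conj_conj]
      rw [h1]
      refine congrArg _ ?_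
      rw [← he l⁻¹ (inv_mem hl)]
      exact congrArg e (by group)
    · simp
  · exact fun e he l hl x x' => ⟨KKF_3a L e he hl x x', KKF_3b L e hl x x'⟩
  · intro e y hy x x'
    unfold KK
    symm
    refine KKF_fe _ _ _ _ (MulAut.conj y).toEquiv (fun m => ?_) fun m _ => ?_
    · simp only [SetLike.mem_coe, MulEquiv.toEquiv_eq_coe, EquivLike.coe_coe, MulAut.conj_apply]
      exact KKF_nz hy m
    · simp only [MulEquiv.toEquiv_eq_coe, EquivLike.coe_coe, MulAut.conj_apply]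
      exact congrArg e (by group)
  · intro p e y hy
    have h1 : ∀ x : G, ∑ᶠ z ∈ {z : G | y⁻¹ * z ∈ L}, e (x * z * x⁻¹ * z⁻¹) = KK L e x (y * x * y⁻¹) := by
      intro x
      unfold KK
      symm
      refine KKF_fe _ _ _ _ (Equiv.mulRight y) (fun m => ?_) fun m _ => ?_
      · simp only [SetLike.mem_coe, Equiv.coe_mulRight, Set.mem_ofPred_eq]
        rw [KKF_nz' hy m, mul_assoc]
      · simp only [Equiv.coe_mulRight]
        exact congrArg e (by group)
    exact ⟨by unfold om; simp only [h1], by unfold ta; simp only [h1]⟩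
  · intro e g _ hg hs x _
    rw [KKF_B L a ha e g hg x]
    congr 1
    have h1 := KKF_cv e g x 1
    rw [mul_one] at h1
    rw [h1, finsum_eq_sum_of_fintype, KKF_fs]
    refine Finset.sum_congr rfl fun X _ => ?_
    rw [mul_one]
    split_ifs with hX
    · rfl
    · rw [hs X hX, mul_zero]
  · intro e hc y
    unfold ta
    rw [map_div₀, map_natCast]
    congr 1
    simp only [KKF_fs]
    rw [map_sum]
    have h2 : ∀ (P : Prop) (T : Set G) (F : G → ℂ), (if P then ∑ z, (if z ∈ T then F z else 0) else 0) =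
        ∑ z, if P ∧ z ∈ T then F z else 0 := by
      intro P T F
      by_cases hx : P
      · simp [hx]
      · simp [hx]
    simp only [h2, map_sum]
    rw [Finset.sum_comm]
    refine Finset.sum_congr rfl fun x _ => Finset.sum_congr rfl fun z _ => ?_
    by_cases hxz : z ∈ {x : G | a⁻¹ * x ∈ L} ∧ x ∈ {z : G | y⁻¹ * z ∈ L}
    · rw [if_pos hxz, if_pos ⟨hxz.2, hxz.1⟩, ← hc]
      exact congrArg e (by group)
    · rw [if_neg hxz, if_neg fun h => hxz ⟨h.2, h.1⟩, map_zero]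

end Pool.Agent.LE
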